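import Pool.Agent.Results.MP_7e5527_ag.NoPointsInOrbits

/-!
# MP_7e5527_ag: ALL members of families in `Y(1)^n` with parameters in cubes avoid adjoint-isomorphism orbits

Let `G = GL_2^n`, so that `Γ \ X⁺ = Y(1)^n = ℂ^n`. If `(M, X_M)` is any Shimura datum and `x ∈ X_M` is Hodge generic
then all coordinates of the points of `Σ(M, X_M, x)` are either singular moduli or `j`-invariants of elliptic curves
isogenous to one of finitely many elliptic curves (those of the factors `PGL_2` of `M^ad`). So `Σ(M, X_M, x)` is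
contained in the set `Orbit γ` of the points all of whose coordinates are singular moduli or of the form `j (g z)`,
`j (z) ∈ γ`, `g` rational with positive determinant, for a finite set `γ` of complex numbers.

**Theorem.** Let `K ⊂ ℂ` be a countable field, `q ≥ 1` and `r` fixed, `v ≥ 1` a sequence of exponent of convergence at most `τ`
(for `v_l = (l + 1) ^ b` this is `1 / b`, for `v_l = b ^ l` it is `0`) and `θ < 1`. There is one set `E` of real
`q × (r + 1)`-matrices of Hausdorff dimension at most `(q (r + 1) - 1 + τ) / (1 - θ)` such that for each `α` outside of `E`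
the following holds for ALL families `X_t` of subsets of `Y(1)^n` (any `n`, any dimension `m < n`) with `q` parameters whose
projections to sets of coordinates degenerate (`DegeneratesOn`, as in `MP_22337f_ag.MembersInCubes`), for ALL algebraic
numbers `ω_0 ≠ 0, ω_1, …, ω_r` in `K` and ALL finite sets `γ` of elements of `K`: for all large `l` and ALL integral
matrices `u` with `|u_jb - α_jb v_l| ≤ v_l ^ θ` the member `X_t`, `t_j = ∑ ω_b u_jb`, contains NO point of `Orbit γ`. So Q1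
holds for all subvarieties `V` of these members (the closure of `Σ ∩ V` is empty), for all `(M, X_M)` and `x` with `γ(x)` in
`γ`.
-/

set_option autoImplicit false

namespace Pool.Agent.Results.MP_7e5527_ag.CubesAvoidOrbits

open MvPolynomial MeasureTheory UpperHalfPlane Pool.Agent.X295 Pool.Agent.Y152.RP.Fam
open H294ZP Pool.Agent.W282.ZP
open MP_22337f_ag.MembersInCubes (DegeneratesOn)
open NoPointsInOrbits (Orbit orbit_empty)

/-- the exponent of convergence of the sequence `v` is at most `τ` -/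
def ExpLe (v : ℕ → ℝ) (τ : ℝ) : Prop := ∀ t : ℝ, τ < t → Summable (fun n : ℕ => (v n) ^ (-t))

/-- for all families with `q` parameters whose projections to sets `I_s` of coordinates degenerate, where
each set of at most `2 (m + 1)` coordinates is in one of the `I_s`, and all algebraic `ω` in `K`: for all
large `l` all members with integral parameter matrices `u` with `|u_jb - α_jb v_l| ≤ v_l ^ θ` contain no point of
`Orbit γ` -/
def AllMembersAvoid (K : Subfield ℂ) (q r : ℕ) (v : ℕ → ℝ) (α : Fin q × Fin (r + 1) → ℝ) (θ : ℝ) : Prop :=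
  ∀ (n m P : ℕ), m < n → ∀ (ω : Fin (r + 1) → K), ω 0 ≠ 0 → (∀ b, IsAlgebraic ℚ (ω b : ℂ)) → ∀
    (δ : MvPolynomial (Fin q) K), δ ≠ 0 → ∀ (X : (Fin q → ℂ) → Set (Fin n → ℂ))
    (k : Fin P → ℕ) (σ : ∀ s, Fin (k s) → Fin n), (∀ s, Function.Injective (σ s)) →
    (∀ J : Finset (Fin n), J.card ≤ 2 * (m + 1) → ∃ s, ∀ i ∈ J, ∃ t, σ s t = i) →
    (∀ s, DegeneratesOn δ m X (σ s)) → ∀ (γ : Finset ℂ), (∀ c ∈ γ, c ∈ K) →
    ∃ l₀ : ℕ, ∀ l : ℕ, l₀ ≤ l → ∀ u : Fin q → Fin (r + 1) → ℤ,
      (∀ j b, |(u j b : ℝ) - α (j, b) * v l| ≤ (v l) ^ θ) →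
        X (fun j => ∑ b, (ω b : ℂ) * (u j b : ℂ)) ∩ Orbit (γ : Set ℂ) = ∅

/-- **Theorem.** See the header. -/
theorem result :
    (∀ (K : Subfield ℂ) [Countable K] (q r : ℕ), 0 < q → ∀ (v : ℕ → ℝ) (τ θ : ℝ),
      (∀ l, 1 ≤ v l) → 0 ≤ τ → ExpLe v τ → θ < 1 →
      ∃ E : Set (Fin q × Fin (r + 1) → ℝ),
        dimH E ≤ ENNReal.ofReal (((q : ℝ) * (r + 1) - 1 + τ) / (1 - θ)) ∧
        ∀ α : Fin q × Fin (r + 1) → ℝ, α ∉ E → AllMembersAvoid K q r v α θ) ∧
    (∀ b : ℝ, 0 < b → ExpLe (fun n : ℕ => ((n : ℝ) + 1) ^ b) (1 / b)) ∧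
    (∀ b : ℝ, 1 < b → ExpLe (fun n : ℕ => b ^ n) 0) := by
  refine ⟨fun K _ q r hq v τ θ hv hτ hE hθ => ?_, fun b hb => Pool.Agent.Y854.GM.expLe_pow b hb,
    fun b hb => Pool.Agent.Y854.GM.expLe_geom b hb⟩
  obtain ⟨E, h1, H⟩ := MP_22337f_ag.MembersInCubes.result.1 K q r hq v τ θ hv hτ hE hθ
  refine ⟨E, h1, fun α hα => ?_⟩
  intro n m P hmn ω hω1 hω2 δ hδ X k σ hσ hcover hdeg γ hγ
  obtain ⟨l₀, hl₀⟩ := H α hα n m P ω hω1 hω2 δ hδ X k σ hσ hcover hdeg γ hγ
  exact ⟨l₀, fun l hl u hu => orbit_empty hmn γ (hl₀ l hl u hu)⟩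

end Pool.Agent.Results.MP_7e5527_ag.CubesAvoidOrbits
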